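import Pool.Agent.H2.BL.MD
import Pool.Agent.H82.IC.LDefs

/-!
# MP_26628e_mp, project BL, Part III: the hexagonal lattice `T*`, height measures

`T` = triangular lattice: hubs `ℤ²`, edges horizontal, vertical and anti-diagonal `(X+1,Y)-(X,Y+1)`.  `T*` = its dual, realised as the brick wall subgraph of `ℤ²`
(`Zl 2` of H82/IC, vertices `Vx 2 = Fin 2 → ℤ`, edges `Ed 2 = Vx 2 × Fin 2`, direction `0` horizontal, `1` vertical): all horizontal edges, and the vertical edge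
`(x,y)-(x,y+1)` iff `x - y` is odd.  The vertex `(x,y)`, with `i = (x-y)/2` (rounded down), `b = (x-y)%2`, is a triangle of the unit square `(i,y)` (lower left corner):
`b = 0`: `{(i,y),(i+1,y),(i,y+1)}`, `b = 1`: `{(i+1,y),(i+1,y+1),(i,y+1)}`.
-/

set_option autoImplicit false

open Finset MeasureTheory

noncomputable section

namespace XYL

open H82.IC

/-- column and type of a triangle. -/
def ci (v : Vx 2) : ℤ := (v 0 - v 1) / 2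
def cb (v : Vx 2) : ℤ := (v 0 - v 1) % 2

/-- edges of `T*`. -/
def isT (e : Ed 2) : Prop := e.2 = 0 ∨ cb e.1 = 1

/-- ends of the edge of `T` dual to the edge `e` of `T*` (`e` rotated by `+90°`). -/
def hbs (e : Ed 2) : Vx 2 := if e.2 = 0 then ![ci e.1 + 1, e.1 1] else ![ci e.1 + 1, e.1 1 + 1]
def hbr (e : Ed 2) : Vx 2 :=
  if e.2 = 0 ∧ cb e.1 = 1 then ![ci e.1 + 1, e.1 1 + 1] else ![ci e.1, e.1 1 + 1]

/-- triangles inside the box of hubs `|X - c 0|, |Y - c 1| ≤ R`. -/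
def InB (c : Vx 2) (R : ℤ) : Set (Vx 2) :=
  {v | c 0 - R ≤ ci v ∧ ci v + 1 ≤ c 0 + R ∧ c 1 - R ≤ v 1 ∧ v 1 + 1 ≤ c 1 + R}

/-- triangles inside the hexagon of hubs `|X - c 0|, |Y - c 1|, |X + Y - c 0 - c 1| ≤ R`. -/
def InH (c : Vx 2) (R : ℤ) : Set (Vx 2) :=
  {v | v ∈ InB c R ∧ c 0 + c 1 - R ≤ ci v + v 1 + cb v ∧ ci v + v 1 + 1 + cb v ≤ c 0 + c 1 + R}

/-! ## automorphisms of `T*` -/

/-- translation of hubs by `t`. -/
def trv (t : Vx 2) (v : Vx 2) : Vx 2 := ![v 0 + 2 * t 0 + t 1, v 1 + t 1]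
/-- rotation of order 6; on hubs `(X,Y) ↦ (-Y, X+Y)`. -/
def rot (v : Vx 2) : Vx 2 := ![ci v - v 1 - 1, ci v + v 1 + cb v]

/-! ## weights -/

/-- properties of the weight sequence. -/
structure AW (a : ℤ → ℝ) : Prop where
  even : ∀ n, a (-n) = a n
  pos : ∀ n, 0 < a n
  lc : ∀ n, a (n - 1) * a (n + 1) ≤ a n ^ 2
  lt : a 1 < a 0
  le : a 0 ≤ 2 * a 1

/-- probability that `e` is a minus edge, given `h`. -/
def pM (a : ℤ → ℝ) (e : Ed 2) (h : Vx 2 → ℤ) : ℝ :=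
  open Classical in
  if isT e ∧ h ((Zl 2).s e) ≤ 0 ∧ h ((Zl 2).r e) ≤ 0 then
    1 - a (1 - h ((Zl 2).s e) - h ((Zl 2).r e)) / a (h ((Zl 2).s e) - h ((Zl 2).r e))
  else 0

/-- heights and independent uniform variables on the edges. -/
abbrev Om : Type := (Vx 2 → ℤ) × (Ed 2 → ℝ)

/-- minus edges, plus edges. -/
def oM (a : ℤ → ℝ) (ω : Om) : Set (Ed 2) := {e | isT e ∧ ω.2 e < pM a e ω.1}
def oP (a : ℤ → ℝ) (ω : Om) : Set (Ed 2) := {e | isT e ∧ 1 - pM a e (-ω.1) < ω.2 e}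

/-- independent uniform variables. -/
def lam : Measure (Ed 2 → ℝ) :=
  Measure.infinitePi (fun _ : Ed 2 => (volume : Measure ℝ).restrict (Set.Icc 0 1))

/-- the joint law. -/
def PP (μ : Measure (Vx 2 → ℤ)) : Measure Om := μ.prod lam

/-- `F` depends on the heights in `W` only. -/
def Loc (W : Finset (Vx 2)) (F : (Vx 2 → ℤ) → ℝ) : Prop :=
  ∀ h h' : Vx 2 → ℤ, (∀ u ∈ W, h u = h' u) → F h = F h'

/-- the vertex `y` is connected in `S` to distance `s`. -/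
def Far (S : Set (Ed 2)) (y : Vx 2) (s : ℕ) : Prop := ∃ v : Vx 2, s ≤ nm (v - y) ∧ (Zl 2).Conn S y v

/-- the properties of the infinite volume height measure. -/
structure HM (a : ℤ → ℝ) (μ : Measure (Vx 2 → ℤ)) : Prop where
  prob : IsProbabilityMeasure μ
  tr : ∀ t : Vx 2, μ.map (fun h => h ∘ trv t) = μ
  rot : μ.map (fun h => h ∘ XYL.rot) = μ
  neg : μ.map (fun h => -h) = μ
  /-- association -/
  fkg : ∀ (W : Finset (Vx 2)) (F G : (Vx 2 → ℤ) → ℝ), Loc W F → Loc W G →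
    Antitone F → Antitone G → (∀ h, 0 ≤ F h ∧ F h ≤ 1) → (∀ h, 0 ≤ G h ∧ G h ≤ 1) →
    (∫ h, F h ∂μ) * (∫ h, G h ∂μ) ≤ ∫ h, F h * G h ∂μ
  /-- decorrelation -/
  dec : ∀ (W : Finset (Vx 2)) (F : (Vx 2 → ℤ) → ℝ), Loc W F → Antitone F →
    (∀ h, 0 ≤ F h ∧ F h ≤ 1) → ∀ η : ℝ, 0 < η → ∃ D : ℕ, ∀ t : Vx 2, D ≤ nm t →
    ∫ h, F h * F (h ∘ trv t) ∂μ ≤ (∫ h, F h ∂μ) ^ 2 + η
  tail : ∃ M : ℝ, ∀ (u : Vx 2) (K : ℕ), 1 ≤ K → μ.real {h | (K : ℤ) ≤ |h u|} ≤ M / K ^ 2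
  /-- finite energy: if the heights around `Q` are bounded by `K` then the heights in `Q` vanish with positive conditional probability -/
  fe : ∀ (Q : Finset (Vx 2)) (K : ℕ), ∃ c : ℝ, 0 < c ∧ ∀ (W : Finset (Vx 2)) (F : (Vx 2 → ℤ) → ℝ),
    Loc W F → Disjoint W Q → (∀ h, 0 ≤ F h ∧ F h ≤ 1) →
    (∀ h, F h ≠ 0 → ∀ e : Ed 2, isT e → ((Zl 2).s e ∈ Q → |h ((Zl 2).r e)| ≤ (K : ℤ) ∨ (Zl 2).r e ∈ Q) ∧
      ((Zl 2).r e ∈ Q → |h ((Zl 2).s e)| ≤ (K : ℤ) ∨ (Zl 2).s e ∈ Q)) →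
    c * ∫ h, F h ∂μ ≤ ∫ h, F h * ind (∀ u ∈ Q, h u = 0) ∂μ
  /-- percolation of the minus edges -/
  arm : ∃ p0 : ℝ, 0 < p0 ∧ ∀ s : ℕ, p0 ≤ (PP μ).real {ω | Far (oM a ω) 0 s}

end XYL
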