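import Mathlib

/-!
# MP_26628e_mp, project BL: definitions, abstract part (sequentially monotone weights)

`ι` is a finite set of coordinates, `S` a finite linear order, `μ : (ι → S) → ℝ` a positive weight (not
normalised).  `cE μ P F x` is the conditional expectation of `F` given that the coordinates in `P` are
those of `x`; `ex μ F` is the expectation.  `pre i` are the coordinates that have to be revealed before
`i`; a set `P` of coordinates is valid (`Val pre P`) if it contains `pre i` for all `i ∈ P`.
-/

set_option autoImplicit false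

open Finset

noncomputable section

namespace XYL

/-- real indicator. -/
def ind (p : Prop) : ℝ := open Classical in if p then 1 else 0

section
variable {ι S : Type} [Fintype ι] [DecidableEq ι] [Fintype S] [LinearOrder S]

/-- the configurations that agree with `x` on `P`. -/
def agr (P : Finset ι) (x : ι → S) : Finset (ι → S) := univ.filter (fun y => ∀ i ∈ P, y i = x i)

/-- conditional expectation given the coordinates in `P`. -/
def cE (μ : (ι → S) → ℝ) (P : Finset ι) (F : (ι → S) → ℝ) (x : ι → S) : ℝ :=
  (∑ y ∈ agr P x, μ y * F y) / ∑ y ∈ agr P x, μ y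

/-- expectation. -/
def ex (μ : (ι → S) → ℝ) (F : (ι → S) → ℝ) : ℝ := (∑ y, μ y * F y) / ∑ y, μ y

/-- covariance. -/
def cov (μ : (ι → S) → ℝ) (F G : (ι → S) → ℝ) : ℝ := ex μ (fun x => F x * G x) - ex μ F * ex μ G

/-- conditional covariance. -/
def ccov (μ : (ι → S) → ℝ) (P : Finset ι) (F G : (ι → S) → ℝ) (x : ι → S) : ℝ :=
  cE μ P (fun y => F y * G y) x - cE μ P F x * cE μ P G x

/-- valid sets of revealed coordinates. -/
def Val (pre : ι → Finset ι) (P : Finset ι) : Prop := ∀ i ∈ P, pre i ⊆ P

/-- conditional law of the coordinate `i` given the coordinates in `P`. -/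
def kn (μ : (ι → S) → ℝ) (P : Finset ι) (i : ι) (x : ι → S) (k : S) : ℝ :=
  cE μ P (fun y => ind (y i = k)) x

/-- sequentially monotone weights. -/
structure Mon (μ : (ι → S) → ℝ) (pre : ι → Finset ι) : Prop where
  pos : ∀ x, 0 < μ x
  rk : ∃ r : ι → ℕ, ∀ i, ∀ j ∈ pre i, r j < r i
  mono : ∀ P : Finset ι, Val pre P → ∀ i, i ∉ P → pre i ⊆ P → ∀ x y : ι → S, (∀ j ∈ P, x j ≤ y j) →
    ∀ k : S, cE μ P (fun z => ind (k ≤ z i)) x ≤ cE μ P (fun z => ind (k ≤ z i)) y

/-- the one step quantity: two independent samples of the coordinate `i` given the coordinates in `P`. -/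
def stp (μ : (ι → S) → ℝ) (P : Finset ι) (i : ι) (f : (ι → S) → ℝ) (x : ι → S) : ℝ :=
  ∑ k, ∑ l, kn μ P i x k * kn μ P i x l *
    |cE μ (insert i P) f (Function.update x i k) - cE μ (insert i P) f (Function.update x i l)|

/-- an exploration strategy: the next coordinate to reveal depends on the revealed coordinates only. -/
structure Strat (pre : ι → Finset ι) (σ : Finset ι → (ι → S) → Option ι) : Prop where
  loc : ∀ P x y, (∀ i ∈ P, x i = y i) → σ P x = σ P y
  ok : ∀ P x i, σ P x = some i → i ∉ P ∧ pre i ⊆ P

/-- the set of revealed coordinates after at most `n` more steps, starting from `P`. -/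
def Rev (σ : Finset ι → (ι → S) → Option ι) : ℕ → Finset ι → (ι → S) → Finset ι
  | 0, P, _ => P
  | n + 1, P, x => match σ P x with
    | none => P
    | some i => Rev σ n (insert i P) x

/-- the final set of revealed coordinates. -/
def rev (σ : Finset ι → (ι → S) → Option ι) (x : ι → S) : Finset ι := Rev σ (Fintype.card ι) ∅ x

end

end XYL
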