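import Pool.Agent.H2.BL.MD

/-!
# Ma: conditional expectations for positive weights

All sums are finite and all denominators are positive (`x ∈ agr P x`).
* `cE_congr`: `agr P x = agr P x'` if `x`, `x'` agree on `P`.
* `ex_cE`, `cE_tower`: partition `agr P x` into the classes `agr Q y` (`P ⊆ Q`):
  `∑_{y ∈ agr P x} μ y (∑_{z ∈ agr Q y} μ z F z) / (∑_{z ∈ agr Q y} μ z)`; swap the sums: `z ∈ agr Q y ↔ y ∈ agr Q z`,
  and then the inner sum over `y ∈ agr Q z` of `μ y / ∑_{agr Q z} μ` is `1` (note `agr Q y = agr Q z`).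
  `ex μ = cE μ ∅`.
* `cE_pull`: `G y = G x` for `y ∈ agr P x`.
* `cE_step`: split `agr P x` according to the value `k = y i`: for `i ∉ P`,
  `{y ∈ agr P x | y i = k} = agr (insert i P) (update x i k)`, so
  `kn μ P i x k * cE μ (insert i P) F (update x i k) = (∑_{y ∈ agr P x, y i = k} μ y F y) / ∑_{agr P x} μ`.
* `kn_tail`: `∑_{l ≥ k} kn l = cE (ind (k ≤ z i))`.
-/

set_option autoImplicit false

open Finset

noncomputable section

namespace XYL

lemma ind_nonneg (p : Prop) : 0 ≤ ind p := by unfold ind; split_ifs <;> norm_num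
lemma ind_le_one (p : Prop) : ind p ≤ 1 := by unfold ind; split_ifs <;> norm_num

variable {ι S : Type} [Fintype ι] [DecidableEq ι] [Fintype S] [LinearOrder S]

theorem mem_agr {P : Finset ι} {x y : ι → S} : y ∈ agr P x ↔ ∀ i ∈ P, y i = x i := by
  unfold agr; simp

theorem cE_den_pos {μ : (ι → S) → ℝ} (hμ : ∀ x, 0 < μ x) (P : Finset ι) (x : ι → S) :
    0 < ∑ y ∈ agr P x, μ y := by
  sorry

theorem cE_congr (μ : (ι → S) → ℝ) {P : Finset ι} (F : (ι → S) → ℝ) {x x' : ι → S}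
    (h : ∀ i ∈ P, x i = x' i) : cE μ P F x = cE μ P F x' := by
  sorry

theorem kn_congr (μ : (ι → S) → ℝ) {P : Finset ι} (i : ι) {x x' : ι → S}
    (h : ∀ i ∈ P, x i = x' i) : kn μ P i x = kn μ P i x' := by
  sorry

/-- `F` and `F'` agree on `agr P x`. -/
theorem cE_congr_fun (μ : (ι → S) → ℝ) {P : Finset ι} {F F' : (ι → S) → ℝ} {x : ι → S}
    (h : ∀ y, (∀ i ∈ P, y i = x i) → F y = F' y) : cE μ P F x = cE μ P F' x := by
  sorry

theorem cE_empty (μ : (ι → S) → ℝ) (F : (ι → S) → ℝ) (x : ι → S) : cE μ ∅ F x = ex μ F := by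
  sorry

theorem cE_univ {μ : (ι → S) → ℝ} (hμ : ∀ x, 0 < μ x) (F : (ι → S) → ℝ) (x : ι → S) :
    cE μ univ F x = F x := by
  sorry

theorem cE_mono_fun {μ : (ι → S) → ℝ} (hμ : ∀ x, 0 < μ x) (P : Finset ι) {F G : (ι → S) → ℝ}
    (h : ∀ y, F y ≤ G y) (x : ι → S) : cE μ P F x ≤ cE μ P G x := by
  sorry

theorem ex_mono {μ : (ι → S) → ℝ} (hμ : ∀ x, 0 < μ x) {F G : (ι → S) → ℝ}
    (h : ∀ y, F y ≤ G y) : ex μ F ≤ ex μ G := by
  sorry

theorem cE_const {μ : (ι → S) → ℝ} (hμ : ∀ x, 0 < μ x) (P : Finset ι) (c : ℝ) (x : ι → S) :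
    cE μ P (fun _ => c) x = c := by
  sorry

theorem ex_const [Nonempty S] {μ : (ι → S) → ℝ} (hμ : ∀ x, 0 < μ x) (c : ℝ) :
    ex μ (fun _ => c) = c := by
  sorry

theorem cE_add (μ : (ι → S) → ℝ) (P : Finset ι) (F G : (ι → S) → ℝ) (x : ι → S) :
    cE μ P (fun y => F y + G y) x = cE μ P F x + cE μ P G x := by
  sorry

theorem cE_sub (μ : (ι → S) → ℝ) (P : Finset ι) (F G : (ι → S) → ℝ) (x : ι → S) :
    cE μ P (fun y => F y - G y) x = cE μ P F x - cE μ P G x := by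
  sorry

theorem cE_smul (μ : (ι → S) → ℝ) (P : Finset ι) (c : ℝ) (F : (ι → S) → ℝ) (x : ι → S) :
    cE μ P (fun y => c * F y) x = c * cE μ P F x := by
  sorry

theorem cE_sum {κ : Type} (s : Finset κ) (μ : (ι → S) → ℝ) (P : Finset ι) (F : κ → (ι → S) → ℝ)
    (x : ι → S) : cE μ P (fun y => ∑ k ∈ s, F k y) x = ∑ k ∈ s, cE μ P (F k) x := by
  sorry

theorem ex_add (μ : (ι → S) → ℝ) (F G : (ι → S) → ℝ) :
    ex μ (fun y => F y + G y) = ex μ F + ex μ G := by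
  sorry

theorem ex_sub (μ : (ι → S) → ℝ) (F G : (ι → S) → ℝ) :
    ex μ (fun y => F y - G y) = ex μ F - ex μ G := by
  sorry

theorem ex_smul (μ : (ι → S) → ℝ) (c : ℝ) (F : (ι → S) → ℝ) :
    ex μ (fun y => c * F y) = c * ex μ F := by
  sorry

theorem ex_sum {κ : Type} (s : Finset κ) (μ : (ι → S) → ℝ) (F : κ → (ι → S) → ℝ) :
    ex μ (fun y => ∑ k ∈ s, F k y) = ∑ k ∈ s, ex μ (F k) := by
  sorry

/-- `G` depends on the coordinates in `P` only. -/
theorem cE_pull (μ : (ι → S) → ℝ) (P : Finset ι) (F G : (ι → S) → ℝ) (x : ι → S)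
    (hG : ∀ y, (∀ i ∈ P, y i = x i) → G y = G x) :
    cE μ P (fun y => G y * F y) x = G x * cE μ P F x := by
  sorry

theorem cE_tower {μ : (ι → S) → ℝ} (hμ : ∀ x, 0 < μ x) {P Q : Finset ι} (hPQ : P ⊆ Q)
    (F : (ι → S) → ℝ) (x : ι → S) : cE μ P (fun y => cE μ Q F y) x = cE μ P F x := by
  sorry

theorem ex_cE {μ : (ι → S) → ℝ} (hμ : ∀ x, 0 < μ x) (P : Finset ι) (F : (ι → S) → ℝ) :
    ex μ (fun y => cE μ P F y) = ex μ F := by
  sorry

theorem kn_nonneg {μ : (ι → S) → ℝ} (hμ : ∀ x, 0 < μ x) (P : Finset ι) (i : ι) (x : ι → S) (k : S) :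
    0 ≤ kn μ P i x k := by
  sorry

theorem kn_sum {μ : (ι → S) → ℝ} (hμ : ∀ x, 0 < μ x) (P : Finset ι) (i : ι) (x : ι → S) :
    ∑ k, kn μ P i x k = 1 := by
  sorry

theorem kn_tail (μ : (ι → S) → ℝ) (P : Finset ι) (i : ι) (x : ι → S) (k : S) :
    ∑ l ∈ univ.filter (fun l => k ≤ l), kn μ P i x l = cE μ P (fun z => ind (k ≤ z i)) x := by
  sorry

theorem cE_step {μ : (ι → S) → ℝ} (hμ : ∀ x, 0 < μ x) {P : Finset ι} {i : ι} (hi : i ∉ P)
    (F : (ι → S) → ℝ) (x : ι → S) :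
    cE μ P F x = ∑ k, kn μ P i x k * cE μ (insert i P) F (Function.update x i k) := by
  sorry

end XYL
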