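import Pool.Agent.H2.BL.Ma

/-!
# Mb: monotonicity and association of sequentially monotone weights

* `sd_sum` (finite linear order): if `p`, `p'` have the same total mass and all upper tails of `p` are at most those of `p'`, then
  `∑ p g ≤ ∑ p' g` for monotone `g` (Abel summation: `g = g(min) + ∑` of jumps times tail indicators; e.g. induction: write
  `g k = g min + ∑_{l > min, l ≤ k} (g l - g (pred l))`, or use `Fintype`/`Fin n` and `Finset.sum_range_by_parts`, or: the function
  `g` is a nonnegative combination of tail indicators and a constant by induction on the number of values of `g`).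
* `cheb` : `∑ p g ∑ p g' ≤ ∑ p g g'` for `p ≥ 0`, `∑ p = 1`, `g g'` monotone:
  `∑_{k,l} p k p l (g k - g l)(g' k - g' l) ≥ 0`.
* `exists_next`: take `i ∉ P` with minimal rank.
* `cE_mono`: induction on `(univ \ P).card`: `P = univ`: `cE_univ`.  Otherwise take `i ∉ P` with `pre i ⊆ P` (`exists_next`); `insert i P` is valid;
  `cE_step` for `x` and `y`: `g_x k = cE μ (insert i P) F (update x i k)` is monotone in `k` and `g_x k ≤ g_y k` by the induction hypothesis;
  `∑ kn_x g_x ≤ ∑ kn_x g_y ≤ ∑ kn_y g_y` by `sd_sum` (`kn_tail`, `Mon.mono`).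
* `ccov_nonneg`: same induction: `ccov μ P F G x = ∑_k kn k * ccov μ (insert i P) F G (update x i k) + (∑ kn g g' - ∑ kn g ∑ kn g')`.
  (`P = univ`: `0`.)
* `cov_ge`: with `m_F = cE μ P F`, `m_G = cE μ P G` (monotone functions of `x` by `cE_mono`):
  `cov μ F G = ex (ccov μ P F G) + cov μ m_F m_G` (`ex_cE`), and `cov μ m_F m_G ≥ 0` (`ccov_nonneg` for `P = ∅`, `cE_empty`).
-/

set_option autoImplicit false

open Finset

noncomputable section

namespace XYL

section
variable {S : Type} [Fintype S] [LinearOrder S]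

theorem sd_sum {p p' g : S → ℝ} (hs : ∑ k, p k = ∑ k, p' k)
    (ht : ∀ k, ∑ l ∈ univ.filter (fun l => k ≤ l), p l ≤ ∑ l ∈ univ.filter (fun l => k ≤ l), p' l)
    (hg : Monotone g) : ∑ k, p k * g k ≤ ∑ k, p' k * g k := by
  sorry

theorem cheb {p g g' : S → ℝ} (hp : ∀ k, 0 ≤ p k) (h1 : ∑ k, p k = 1) (hg : Monotone g)
    (hg' : Monotone g') : (∑ k, p k * g k) * (∑ k, p k * g' k) ≤ ∑ k, p k * (g k * g' k) := by
  sorry

end

variable {ι S : Type} [Fintype ι] [DecidableEq ι] [Fintype S] [LinearOrder S]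

theorem exists_next {μ : (ι → S) → ℝ} {pre : ι → Finset ι} (h : Mon μ pre) {P : Finset ι}
    (hP : P ≠ univ) : ∃ i, i ∉ P ∧ pre i ⊆ P := by
  sorry

theorem val_insert {pre : ι → Finset ι} {P : Finset ι} (hP : Val pre P) {i : ι}
    (hi : pre i ⊆ P) : Val pre (insert i P) := by
  sorry

theorem cE_mono {μ : (ι → S) → ℝ} {pre : ι → Finset ι} (h : Mon μ pre) {P : Finset ι}
    (hP : Val pre P) {F : (ι → S) → ℝ} (hF : Monotone F) {x y : ι → S}
    (hxy : ∀ j ∈ P, x j ≤ y j) : cE μ P F x ≤ cE μ P F y := by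
  sorry

theorem ccov_nonneg {μ : (ι → S) → ℝ} {pre : ι → Finset ι} (h : Mon μ pre) {P : Finset ι}
    (hP : Val pre P) {F G : (ι → S) → ℝ} (hF : Monotone F) (hG : Monotone G) (x : ι → S) :
    0 ≤ ccov μ P F G x := by
  sorry

/-- association. -/
theorem cov_nonneg {μ : (ι → S) → ℝ} {pre : ι → Finset ι} (h : Mon μ pre)
    {F G : (ι → S) → ℝ} (hF : Monotone F) (hG : Monotone G) : 0 ≤ cov μ F G := by
  sorry

theorem cov_ge {μ : (ι → S) → ℝ} {pre : ι → Finset ι} (h : Mon μ pre) {P : Finset ι}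
    (hP : Val pre P) {F G : (ι → S) → ℝ} (hF : Monotone F) (hG : Monotone G) :
    ex μ (ccov μ P F G) ≤ cov μ F G := by
  sorry

end XYL
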