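import Pool.Agent.H2.BL.MD

/-!
# Qc: quantile coupling on a finite linear order

`cdf k = ∑_{j ≤ k} p j`; `qt p u` = the least `k` with `u < cdf k` (exists for `u < 1` if `∑ p = 1`).
* `qt p u = k` (for `0 ≤ u < 1`) iff `∑_{j < k} p j ≤ u < ∑_{j ≤ k} p j`.  So `{u ∈ [0,1) | qt p u = k}` is an interval `[A, A + p k)`, measurable.
* `qt_integrable`: the integrand takes finitely many values on measurable sets: it is a finite sum of constants times products of indicators of the sets
  `{u | qt (p i) u = k}`; on `(0,1)` bounded and measurable.  (E.g. show `Measurable (qt p)` on `ℝ` for the `⊤` σ-algebra of `S`: the set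
  `{u | qt p u = k}` is a finite Boolean combination of half lines; then the integrand is a measurable function with finite range, hence bounded, on a finite measure.)
* `qt_integral`: `φ (qt p u) = ∑_k φ k 1[qt p u = k]` on `(0,1)`, and the interval has length `p k`.
* `qt_mono`: upper tails of `p` at most those of `p'` and total mass `1` give `cdf' k ≤ cdf k`, so `u < cdf' k` implies `u < cdf k`.
-/

set_option autoImplicit false

open Finset MeasureTheory

noncomputable section

namespace XYL

variable {S : Type} [Fintype S] [LinearOrder S] [Nonempty S]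

/-- quantile function. -/
def qt (p : S → ℝ) (u : ℝ) : S :=
  open Classical in
  if h : (univ.filter (fun k : S => u < ∑ j ∈ univ.filter (fun j => j ≤ k), p j)).Nonempty then
    (univ.filter (fun k : S => u < ∑ j ∈ univ.filter (fun j => j ≤ k), p j)).min' h
  else Classical.arbitrary S

theorem qt_integrable {n : ℕ} (p : Fin n → S → ℝ) (ψ : (Fin n → S) → ℝ) :
    IntervalIntegrable (fun u : ℝ => ψ (fun i => qt (p i) u)) volume 0 1 := by
  sorry

theorem qt_integral {p : S → ℝ} (hp : ∀ k, 0 ≤ p k) (h1 : ∑ k, p k = 1) (φ : S → ℝ) :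
    ∫ u in (0 : ℝ)..1, φ (qt p u) = ∑ k, p k * φ k := by
  sorry

theorem qt_mono {p p' : S → ℝ} (h1 : ∑ k, p k = 1) (h1' : ∑ k, p' k = 1)
    (ht : ∀ k, ∑ l ∈ univ.filter (fun l => k ≤ l), p l ≤ ∑ l ∈ univ.filter (fun l => k ≤ l), p' l)
    {u : ℝ} (h0 : 0 ≤ u) (hu : u < 1) : qt p u ≤ qt p' u := by
  sorry

end XYL
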