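import Pool.Agent.H2.BL.Mb
import Pool.Agent.H2.BL.Qc

/-!
# Os: the OSSS inequality for sequentially monotone weights

Let `f` be monotone with values `0, 1`.  Put `m P y = cE μ P f y`, `N = card ι`.  Define by recursion on the fuel `n` the function
  `G 0 P x y = f x * m P y`,
  `G (n+1) P x y = f x * m P y` if `σ P x = none`,
  `G (n+1) P x y = ∫ u in 0..1, G n (insert i P) (update x i (qt (kn μ P i x) u)) (update y i (qt (kn μ P i y) u))` if `σ P x = some i`.
`OnRun n P x`: for all `x'` agreeing with `x` on `P`: `Rev σ n P x' = rev σ x'`.  It holds for `(N, ∅, x)`; if it holds for `(n+1, P, x)` and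
`σ P x = some i` then it holds for `(n, insert i P, update x i k)` (locality of `σ`); if `σ P x = none` or `n = 0`: `rev σ x' = P` for all these `x'`, so `f x' = f x` (`hdet`),
so `m P x = f x`.  In this file `G` is a function of its arguments with finite range in `u` (everything under the integral is a function of finitely many quantiles),
integrability: `qt_integrable` (with `n = 1, 2, 3`).
All `P` below are valid (`val_insert`, `Strat.ok`).
(0) `G n P x y` depends on `y` through `P` only, and on `x` only through ... (not needed).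
(1) `G n P x x = m P x` if `OnRun n P x`: leaf: `f x * m P x = f x * f x = f x`.  Node: by induction the integrand is `m (insert i P) (update x i (qt (kn μ P i x) u))`;
    `qt_integral` and `cE_step`.
(2) `|G n P x y - G n P x y'| ≤ m P y' - m P y` if `y ≤ y'` on `P` (any `x`): leaf: `0 ≤ f x ≤ 1`, `cE_mono`.  Node: `qt (kn μ P i y) u ≤ qt (kn μ P i y') u` for `u ∈ [0,1)`
    (`qt_mono`, `kn_tail`, `Mon.mono`), so the difference of the integrands is at most `m (insert i P) (update y' i q') - m (insert i P) (update y i q)`; integrate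
    (`qt_integral`, `cE_step`).
(3) `A n P x = ex μ (fun y => G n P x y)`, `d j n P x = cE μ P (fun z => ind (j ∈ Rev σ n P z \ P)) x`.  Claim, if `OnRun n P x`:
    `|A n P x - m P x * ex μ f| ≤ ∑ j, d j n P x * I j`.
    Leaf: `A = f x * ex μ (m P) = f x * ex μ f` (`ex_cE`), `m P x = f x`.
    Node: `B = ∫ u, A n (insert i P) (update x i (qt (kn μ P i x) u))`.  For fixed `x' = update x i (qt .. u)`, by `ex_cE`, `cE_step` and (0):
    `ex_y G n (insert i P) x' y = ex_y ∑_b kn μ P i y b * G n (insert i P) x' (update y i b) = ex_y ∫ v, G n (insert i P) x' (update y i (qt (kn μ P i y) v))`.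
    So `|A (n+1) P x - B| ≤ ex_y ∫∫ |G .. x' (update y i q_y(u)) - G .. x' (update y i q_y(v))| du dv ≤ ex_y ∫∫ |m (insert i P) (update y i q_y(u)) - m (insert i P) (update y i q_y(v))|`
    (by (2): the two arguments are comparable) `= ex μ (stp μ P i f) ≤ I i`.
    And `|B - m P x * ex μ f| ≤ ∫ ∑_j d j n (insert i P) (update x i (qt ..)) I j = ∑_j I j ∑_k kn μ P i x k * d j n (insert i P) (update x i k)`, and
    `d j (n+1) P x = (if j = i then 1 else 0) + ∑_k kn μ P i x k * d j n (insert i P) (update x i k)` (`cE_step`; for `z` agreeing with `x` on `P`, `σ P z = some i` and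
    `Rev σ (n+1) P z = Rev σ n (insert i P) z ⊇ insert i P`).
Root: `A N ∅ x = G N ∅ x x = m ∅ x = ex μ f` (`G` does not depend on `y` for `P = ∅`), `d j N ∅ x = ex μ (ind (j ∈ rev σ ·))`.
-/

set_option autoImplicit false

open Finset MeasureTheory

noncomputable section

namespace XYL

variable {ι S : Type} [Fintype ι] [DecidableEq ι] [Fintype S] [LinearOrder S] [Nonempty S]

theorem osss {μ : (ι → S) → ℝ} {pre : ι → Finset ι} (h : Mon μ pre)
    {σ : Finset ι → (ι → S) → Option ι} (hσ : Strat pre σ) {f : (ι → S) → ℝ} (hf : Monotone f)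
    (hf01 : ∀ x, f x = 0 ∨ f x = 1)
    (hdet : ∀ x y : ι → S, (∀ i ∈ rev σ x, y i = x i) → f y = f x)
    (I : ι → ℝ) (hI : ∀ P : Finset ι, Val pre P → ∀ i, i ∉ P → pre i ⊆ P →
      ex μ (stp μ P i f) ≤ I i) :
    ex μ f - ex μ f ^ 2 ≤ ∑ i, ex μ (fun x => ind (i ∈ rev σ x)) * I i := by
  sorry

end XYL
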