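import Pool.Agent.H2.BL.MD
import Pool.Agent.H82.IC.LDefs

/-!
# MP_26628e_mp, project BL: the weights of Part II on a finite graph, and the torus

Graph `Γ : Gr V E` (hubs `V`; every edge `e` carries one more vertex `z_e`).  Levels: `Fin (8 p)`.
Coordinates `Co V E = V ⊕ E ⊕ E`: `inl v` level of the hub `v`, `inr (inl e)` level of `z_e`,
`inr (inr e)` the state of the edge `e` (open iff the level is `≥ 4 p`).
-/

set_option autoImplicit false

open Finset

noncomputable section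

namespace XYL

open H82.IC

/-- levels. -/
abbrev Lv (p : ℕ) : Type := Fin (8 * p)

instance (p : ℕ) [NeZero p] : Nonempty (Lv p) := ⟨⟨0, by have := NeZero.pos p; omega⟩⟩

/-- `|cos|` at level `k` (increasing in `k`). -/
def cc {p : ℕ} (k : Lv p) : ℝ := Real.sin (Real.pi * (2 * (k.val : ℝ) + 1) / (32 * p))

/-- `|sin|` at level `k` (decreasing in `k`). -/
def sc {p : ℕ} (k : Lv p) : ℝ := Real.cos (Real.pi * (2 * (k.val : ℝ) + 1) / (32 * p))

/-- sign. -/
def sgn (b : Bool) : ℝ := if b then 1 else -1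

/-- coordinates. -/
abbrev Co (V E : Type) : Type := V ⊕ E ⊕ E

section
variable {V E : Type} [Fintype V] [DecidableEq V] [Fintype E] [DecidableEq E] {p : ℕ}

/-- the open edges. -/
def om (x : Co V E → Lv p) : Finset E := univ.filter (fun e => 4 * p ≤ (x (Sum.inr (Sum.inr e))).val)

/-- the four couplings of the edge `e`. -/
def Xs (Γ : Gr V E) (J : ℝ) (x : Co V E → Lv p) (e : E) : ℝ :=
  J * cc (x (Sum.inr (Sum.inl e))) * cc (x (Sum.inl (Γ.s e)))
def Xr (Γ : Gr V E) (J : ℝ) (x : Co V E → Lv p) (e : E) : ℝ :=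
  J * cc (x (Sum.inr (Sum.inl e))) * cc (x (Sum.inl (Γ.r e)))
def Ys (Γ : Gr V E) (J : ℝ) (x : Co V E → Lv p) (e : E) : ℝ :=
  J * sc (x (Sum.inr (Sum.inl e))) * sc (x (Sum.inl (Γ.s e)))
def Yr (Γ : Gr V E) (J : ℝ) (x : Co V E → Lv p) (e : E) : ℝ :=
  J * sc (x (Sum.inr (Sum.inl e))) * sc (x (Sum.inl (Γ.r e)))

/-- sum over the signs of the sines. -/
def zdel (Γ : Gr V E) (J : ℝ) (x : Co V E → Lv p) : ℝ :=
  ∑ δ : V → Bool, ∏ e : E, (2 * Real.cosh (Ys Γ J x e * sgn (δ (Γ.s e)) + Yr Γ J x e * sgn (δ (Γ.r e))))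

/-- sum over the signs of the cosines compatible with the open edges. -/
def zeps (Γ : Gr V E) (J : ℝ) (x : Co V E → Lv p) : ℝ :=
  ∑ ε : V → Bool, ∏ e : E,
    (if e ∈ om x then
      (if ε (Γ.s e) = ε (Γ.r e) then 4 * Real.sinh (Xs Γ J x e) * Real.sinh (Xr Γ J x e) else 0)
     else 2 * Real.cosh (Xs Γ J x e - Xr Γ J x e))

/-- `∑ |cos|²` over all vertices. -/
def En (x : Co V E → Lv p) : ℝ :=
  (∑ v : V, cc (x (Sum.inl v)) ^ 2) + ∑ e : E, cc (x (Sum.inr (Sum.inl e))) ^ 2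

/-- the weight of Part II. -/
def WW (Γ : Gr V E) (J l : ℝ) (x : Co V E → Lv p) : ℝ :=
  zeps Γ J x * zdel Γ J x * Real.exp (l * En x)

/-- the edges in `F` are revealed, the others are summed. -/
def zU (Γ : Gr V E) (J : ℝ) (F : Finset E) (x : Co V E → Lv p) : ℝ :=
  ∑ ε : V → Bool, ∏ e : E,
    (if e ∈ F then (if e ∈ om x then (if ε (Γ.s e) = ε (Γ.r e) then 1 else 0) else 1)
     else 2 * Real.cosh (Xs Γ J x e * sgn (ε (Γ.s e)) + Xr Γ J x e * sgn (ε (Γ.r e))))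

def UU (Γ : Gr V E) (J l : ℝ) (F : Finset E) (x : Co V E → Lv p) : ℝ :=
  zU Γ J F x * zdel Γ J x * Real.exp (l * En x)

/-- the state of an edge is revealed after the levels of its three vertices. -/
def prc (Γ : Gr V E) : Co V E → Finset (Co V E)
  | Sum.inl _ => ∅
  | Sum.inr (Sum.inl _) => ∅
  | Sum.inr (Sum.inr e) => {Sum.inl (Γ.s e), Sum.inl (Γ.r e), Sum.inr (Sum.inl e)}

/-- the revealed edge states. -/
def rF (P : Finset (Co V E)) : Finset E := univ.filter (fun e => (Sum.inr (Sum.inr e) : Co V E) ∈ P)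

/-- `c²` at a level coordinate `i : V ⊕ E`. -/
def gq (i : V ⊕ E) (x : Co V E → Lv p) : ℝ :=
  match i with
  | Sum.inl v => cc (x (Sum.inl v)) ^ 2
  | Sum.inr e => cc (x (Sum.inr (Sum.inl e))) ^ 2

/-- the level coordinate of `i : V ⊕ E`. -/
def lc (i : V ⊕ E) : Co V E :=
  match i with
  | Sum.inl v => Sum.inl v
  | Sum.inr e => Sum.inr (Sum.inl e)

/-- `a = 2 sinh X sinh Y / cosh (X - Y)`. -/
def aa (X Y : ℝ) : ℝ := 2 * Real.sinh X * Real.sinh Y / Real.cosh (X - Y)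

/-- every hub has at most `4` edges. -/
def Deg4 (Γ : Gr V E) : Prop := ∀ v : V, (univ.filter (fun e => Γ.s e = v ∨ Γ.r e = v)).card ≤ 4

end

/-! ## the torus -/

abbrev TV (L : ℕ) : Type := Fin 2 → ZMod L
abbrev TE (L : ℕ) : Type := (Fin 2 → ZMod L) × Fin 2

/-- the torus `(ℤ/L)²`. -/
def TT (L : ℕ) : Gr (TV L) (TE L) where
  s e := e.1
  r e := e.1 + Pi.single e.2 1

/-- projection of vertices and edges of `ℤ²` to the torus. -/
def pv (L : ℕ) (x : Vx 2) : TV L := fun i => (x i : ZMod L)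
def pe (L : ℕ) (e : Ed 2) : TE L := (pv L e.1, e.2)

/-- the periodic configuration. -/
def cfg {L p : ℕ} [NeZero L] (x : Co (TV L) (TE L) → Lv p) : Cf 2 := fun e => decide (pe L e ∈ om x)

/-- `θ_n = P(0 ↔ ∂Λ_n)` on the torus. -/
def thn (L p : ℕ) [NeZero L] (J l : ℝ) (n : ℕ) : ℝ :=
  ex (WW (p := p) (TT L) J l) (fun x => ind (cfg x ∈ arm n (0 : Vx 2)))

end XYL
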